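import Pool.Agent.TH313.HI.Sect

/-! `R`-boundedness: elementary facts. -/

set_option autoImplicit false
set_option linter.unusedSectionVars false

open Set Filter Topology

namespace Pool.Agent.TH332.HF

open Pool.Agent.TH313.HI

variable {X : Type*} [NormedAddCommGroup X] [NormedSpace ℂ X]

section rad

variable {ι : Type} [Fintype ι] [DecidableEq ι]

/-- signed sum -/
noncomputable def sg (x : ι → X) (ε : ι → Bool) : X := ∑ k, (if ε k then x k else -x k)

theorem sg_add (x y : ι → X) (ε : ι → Bool) : sg (x + y) ε = sg x ε + sg y ε := by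
  unfold sg
  rw [← Finset.sum_add_distrib]
  refine Finset.sum_congr rfl fun k _ => ?_
  by_cases h : ε k <;> simp [h]; abel

theorem radNorm_eq (x : ι → X) : radNorm x =
    Real.sqrt (((2 : ℝ) ^ Fintype.card ι)⁻¹) * ‖WithLp.toLp 2 (sg x)‖ := by
  unfold radNorm
  rw [Real.sqrt_mul (by positivity), PiLp.norm_eq_of_L2]
  rfl

theorem radNorm_nonneg (x : ι → X) : 0 ≤ radNorm x := Real.sqrt_nonneg _

theorem radNorm_add (x y : ι → X) : radNorm (x + y) ≤ radNorm x + radNorm y := by
  rw [radNorm_eq, radNorm_eq, radNorm_eq, ← mul_add]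
  refine mul_le_mul_of_nonneg_left ?_ (Real.sqrt_nonneg _)
  have : WithLp.toLp 2 (sg (x + y)) = WithLp.toLp 2 (sg x) + WithLp.toLp 2 (sg y) := by
    rw [← WithLp.toLp_add]
    congr 1
    funext ε
    exact sg_add x y ε
  rw [this]
  exact norm_add_le _ _

theorem radNorm_map (T : X →L[ℂ] X) (x : ι → X) :
    radNorm (fun k => T (x k)) ≤ ‖T‖ * radNorm x := by
  unfold radNorm
  rw [← Real.sqrt_sq (norm_nonneg T), ← Real.sqrt_mul (by positivity)]
  apply Real.sqrt_le_sqrt
  have hpos : (0:ℝ) ≤ ((2 : ℝ) ^ Fintype.card ι)⁻¹ := by positivity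
  rw [mul_left_comm]
  refine mul_le_mul_of_nonneg_left ?_ hpos
  rw [Finset.mul_sum]
  refine Finset.sum_le_sum fun ε _ => ?_
  rw [← mul_pow]
  refine pow_le_pow_left₀ (norm_nonneg _) ?_ 2
  have : ∑ k, (if ε k then T (x k) else -T (x k)) = T (∑ k, (if ε k then x k else -x k)) := by
    rw [map_sum]
    refine Finset.sum_congr rfl fun k _ => ?_
    by_cases h : ε k <;> simp [h]
  rw [this]
  exact T.le_opNorm _

theorem radNorm_smul (c : ℂ) (x : ι → X) : radNorm (fun k => c • x k) = ‖c‖ * radNorm x := by
  unfold radNorm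
  rw [← Real.sqrt_sq (norm_nonneg c), ← Real.sqrt_mul (by positivity)]
  congr 1
  rw [mul_left_comm]
  congr 1
  rw [Finset.mul_sum]
  refine Finset.sum_congr rfl fun ε _ => ?_
  rw [← mul_pow]
  congr 1
  rw [← norm_smul, Finset.smul_sum]
  congr 1
  refine Finset.sum_congr rfl fun k _ => ?_
  by_cases h : ε k <;> simp [h]

/-- changing one sign does not matter -/
theorem radNorm_flip (x : ι → X) (j : ι) :
    radNorm (Function.update x j (-x j)) = radNorm x := by
  unfold radNorm
  congr 2
  let e : (ι → Bool) ≃ (ι → Bool) :=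
    { toFun := fun ε => Function.update ε j (!(ε j))
      invFun := fun ε => Function.update ε j (!(ε j))
      left_inv := fun ε => by
        funext k
        by_cases h : k = j
        · subst h; simp
        · simp [h]
      right_inv := fun ε => by
        funext k
        by_cases h : k = j
        · subst h; simp
        · simp [h] }
  rw [← Equiv.sum_comp e]
  refine Finset.sum_congr rfl fun ε _ => ?_
  congr 2
  refine Finset.sum_congr rfl fun k _ => ?_
  by_cases h : k = j
  · subst h
    by_cases h2 : ε k <;> simp [e, h2]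
  · simp [e, h]

theorem radNorm_one (x : ι → X) (j : ι) (a : ℝ) (ha : |a| ≤ 1) :
    radNorm (Function.update x j ((a : ℂ) • x j)) ≤ radNorm x := by
  obtain ⟨h1, h2⟩ := abs_le.1 ha
  have key : Function.update x j ((a : ℂ) • x j) =
      (fun k => (((1 + a) / 2 : ℝ) : ℂ) • x k) +
        fun k => (((1 - a) / 2 : ℝ) : ℂ) • (Function.update x j (-x j)) k := by
    funext k
    by_cases h : k = j
    · subst h
      simp only [Function.update_self, Pi.add_apply, smul_neg, ← sub_eq_add_neg, ← sub_smul]
      congr 1
      push_cast; ring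
    · simp only [Function.update_of_ne h, Pi.add_apply, ← add_smul]
      rw [← one_smul ℂ (x k)]
      simp only [one_smul]
      conv_lhs => rw [← one_smul ℂ (x k)]
      congr 1
      push_cast; ring
  rw [key]
  refine (radNorm_add _ _).trans ?_
  rw [radNorm_smul, radNorm_smul, radNorm_flip, Complex.norm_real, Complex.norm_real,
    Real.norm_of_nonneg (by linarith), Real.norm_of_nonneg (by linarith)]
  linarith

theorem radNorm_real (x : ι → X) (a : ι → ℝ) (ha : ∀ k, |a k| ≤ 1) :
    radNorm (fun k => ((a k : ℝ) : ℂ) • x k) ≤ radNorm x := by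
  have h : ∀ s : Finset ι, radNorm (fun k => if k ∈ s then ((a k : ℝ) : ℂ) • x k else x k) ≤
      radNorm x := by
    intro s
    induction s using Finset.induction_on with
    | empty => simp
    | insert j s hj ih =>
      refine le_trans (le_of_eq_of_le ?_ (radNorm_one
        (fun k => if k ∈ s then ((a k : ℝ) : ℂ) • x k else x k) j (a j) (ha j))) ih
      congr 1
      funext k
      by_cases h : k = j
      · subst h; simp [hj]
      · simp [Finset.mem_insert, h]
  simpa using h Finset.univ

theorem radNorm_complex (x : ι → X) (c : ι → ℂ) (hc : ∀ k, ‖c k‖ ≤ 1) :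
    radNorm (fun k => c k • x k) ≤ 2 * radNorm x := by
  have key : (fun k => c k • x k) = (fun k => (((c k).re : ℝ) : ℂ) • x k) +
      fun k => Complex.I • ((((c k).im : ℝ) : ℂ) • x k) := by
    funext k
    simp only [Pi.add_apply, smul_smul, ← add_smul]
    congr 1
    rw [mul_comm]
    exact (Complex.re_add_im (c k)).symm
  rw [key]
  refine (radNorm_add _ _).trans ?_
  rw [radNorm_smul Complex.I (fun k => (((c k).im : ℝ) : ℂ) • x k), Complex.norm_I, one_mul]
  have h1 := radNorm_real x (fun k => (c k).re) fun k => (Complex.abs_re_le_norm _).trans (hc k)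
  have h2 := radNorm_real x (fun k => (c k).im) fun k => (Complex.abs_im_le_norm _).trans (hc k)
  linarith

theorem radNorm_zero : radNorm (fun _ : ι => (0 : X)) = 0 := by
  unfold radNorm; simp

theorem radNorm_sum {α : Type*} (s : Finset α) (y : α → ι → X) :
    radNorm (∑ n ∈ s, y n) ≤ ∑ n ∈ s, radNorm (y n) := by
  classical
  induction s using Finset.induction_on with
  | empty => simp only [Finset.sum_empty]; exact le_of_eq radNorm_zero
  | insert a s ha ih =>
    rw [Finset.sum_insert ha, Finset.sum_insert ha]
    exact (radNorm_add _ _).trans (add_le_add le_rfl ih)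

theorem radNorm_cont : Continuous fun x : ι → X => radNorm x := by
  unfold radNorm
  refine Real.continuous_sqrt.comp (continuous_const.mul (continuous_finsetSum _ fun ε _ => ?_))
  refine Continuous.pow (Continuous.norm (continuous_finsetSum _ fun k _ => ?_)) 2
  by_cases h : ε k <;> simp only [h, if_true, if_false, Bool.false_eq_true] <;> fun_prop

end rad

theorem IsRBounded.mono {S T : Set (X →L[ℂ] X)} (h : IsRBounded T) (hST : S ⊆ T) :
    IsRBounded S := by
  obtain ⟨C, hC⟩ := h
  exact ⟨C, fun ι _ _ T x hT => hC ι T x fun k => hST (hT k)⟩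

theorem IsRBounded.empty : IsRBounded (∅ : Set (X →L[ℂ] X)) := by
  refine ⟨0, fun ι _ _ T x hT => ?_⟩
  have : IsEmpty ι := ⟨fun k => hT k⟩
  rw [zero_mul]
  unfold radNorm
  simp

theorem IsRBounded.union {S T : Set (X →L[ℂ] X)} (hS : IsRBounded S) (hT : IsRBounded T) :
    IsRBounded (S ∪ T) := by
  classical
  obtain ⟨C, hC⟩ := hS
  obtain ⟨D, hD⟩ := hT
  refine ⟨|C| + |D|, fun ι _ _ A x hA => ?_⟩
  -- restriction to the indices with a given property
  have hres : ∀ (U : Set (X →L[ℂ] X)) (E : ℝ)
      (_ : ∀ (ι : Type) [Fintype ι] [DecidableEq ι] (T : ι → X →L[ℂ] X) (x : ι → X),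
        (∀ k, T k ∈ U) → radNorm (fun k => T k (x k)) ≤ E * radNorm x)
      (p : ι → Prop) (_ : ∀ k, p k → A k ∈ U),
      radNorm (fun k => if p k then A k (x k) else 0) ≤ |E| * radNorm x := by
    intro U E hE p hp
    by_cases hex : ∃ k, p k
    · obtain ⟨k0, hk0⟩ := hex
      have h1 := hE ι (fun k => if p k then A k else A k0) (fun k => if p k then x k else 0)
        (fun k => by
          by_cases h : p k
          · simp only [h, if_true]; exact hp k h
          · simp only [h, if_false]; exact hp k0 hk0)
      have h2 : (fun k => (if p k then A k else A k0) (if p k then x k else 0)) =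
          fun k => if p k then A k (x k) else 0 := by
        funext k
        by_cases h : p k <;> simp [h]
      rw [h2] at h1
      have h3 : radNorm (fun k => if p k then x k else 0) ≤ radNorm x := by
        have h4 := radNorm_real x (fun k => if p k then 1 else 0) fun k => by
          by_cases h : p k <;> simp [h]
        refine le_of_eq_of_le ?_ h4
        congr 1
        funext k
        by_cases h : p k <;> simp [h]
      calc _ ≤ E * radNorm (fun k => if p k then x k else 0) := h1
        _ ≤ |E| * radNorm (fun k => if p k then x k else 0) :=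
            mul_le_mul_of_nonneg_right (le_abs_self _) (radNorm_nonneg _)
        _ ≤ |E| * radNorm x := mul_le_mul_of_nonneg_left h3 (abs_nonneg _)
    · push Not at hex
      have : (fun k => if p k then A k (x k) else 0) = fun _ : ι => (0 : X) := by
        funext k; simp [hex k]
      rw [this, radNorm_zero]
      exact mul_nonneg (abs_nonneg _) (radNorm_nonneg _)
  have h1 := hres S C hC (fun k => A k ∈ S) fun k h => h
  have h2 := hres T D hD (fun k => A k ∉ S) fun k h => (hA k).resolve_left h
  have key : (fun k => A k (x k)) = (fun k => if A k ∈ S then A k (x k) else 0) +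
      fun k => if A k ∉ S then A k (x k) else 0 := by
    funext k
    by_cases h : A k ∈ S <;> simp [h]
  rw [key]
  refine (radNorm_add _ _).trans ?_
  rw [add_mul]
  refine add_le_add h1 (le_of_eq_of_le ?_ h2)
  congr 1
  funext k
  by_cases h : A k ∈ S <;> simp [h]

theorem IsRBounded.biUnion {α : Type*} (s : Set α) (hs : s.Finite)
    (S : α → Set (X →L[ℂ] X)) (h : ∀ a ∈ s, IsRBounded (S a)) : IsRBounded (⋃ a ∈ s, S a) := by
  induction s, hs using Set.Finite.induction_on with
  | empty => simp only [mem_empty_iff_false, iUnion_of_empty, iUnion_empty]; exact IsRBounded.empty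
  | @insert a s ha hs ih =>
    rw [biUnion_insert]
    exact IsRBounded.union (h a (mem_insert _ _)) (ih fun b hb => h b (mem_insert_of_mem _ hb))

/-- absolutely convex combinations of a summable sequence -/
theorem IsRBounded.series (D : ℕ → X →L[ℂ] X) (hD : Summable fun n => ‖D n‖) :
    IsRBounded {T : X →L[ℂ] X | ∃ c : ℕ → ℂ, (∀ n, ‖c n‖ ≤ 1) ∧
      ∀ x, HasSum (fun n => c n • D n x) (T x)} := by
  refine ⟨2 * ∑' n, ‖D n‖, fun ι _ _ T x hT => ?_⟩
  choose c hc hs using hT
  have hlim : Tendsto (fun N : ℕ => radNorm (∑ n ∈ Finset.range N,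
      fun k => c k n • D n (x k))) atTop (𝓝 (radNorm fun k => T k (x k))) := by
    refine (radNorm_cont.tendsto _).comp ?_
    rw [tendsto_pi_nhds]
    intro k
    have := (hs k (x k)).tendsto_sum_nat
    simpa only [Finset.sum_apply] using this
  refine le_of_tendsto' hlim fun N => ?_
  refine (radNorm_sum _ _).trans ?_
  have h1 : ∀ n ∈ Finset.range N, radNorm (fun k => c k n • D n (x k)) ≤
      ‖D n‖ * (2 * radNorm x) := by
    intro n _
    have h2 := radNorm_complex (fun k => D n (x k)) (fun k => c k n) fun k => hc k n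
    have h3 := radNorm_map (D n) x
    nlinarith
  refine (Finset.sum_le_sum h1).trans ?_
  rw [← Finset.sum_mul]
  have h4 := hD.sum_le_tsum (Finset.range N) fun n _ => norm_nonneg (D n)
  have h5 := radNorm_nonneg x
  nlinarith

end Pool.Agent.TH332.HF
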